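import Mathlib
import Pool.Graph.R_seed8.Q153.Turan

/-! Turánable oriented graphs: definitions, and cofinality of the products in the class of the
oriented graphs which lie in some `F_r` and in some `C_{2k+1}^k`. -/

set_option autoImplicit false

namespace Pool.Agent.H41.TU

/-- An oriented graph on the vertex set `V`: loopless, and at most one of the edges `uv`, `vu` is
present. -/
structure OGraph (V : Type) where
  adj : V → V → Prop
  asymm : ∀ u v, adj u v → ¬ adj v u

variable {V W : Type}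

/-- `H ⊂ G`: some injective map sends every edge of `H` to an edge of `G` with the same
direction. -/
def OGraph.Sub (H : OGraph V) (G : OGraph W) : Prop :=
  ∃ f : V → W, Function.Injective f ∧ ∀ u v, H.adj u v → G.adj (f u) (f v)

/-- The minimum semi-degree: the smallest out-degree or in-degree of a vertex. -/
noncomputable def OGraph.semiDeg (G : OGraph V) : ℕ :=
  sInf {d | ∃ v, d = Nat.card {w // G.adj v w} ∨ d = Nat.card {w // G.adj w v}}

/-- `G` is a semi-regular near-tournament: `δ⁰(G) = ⌊(|G| - 1)/2⌋`. -/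
def OGraph.SemiRegular (G : OGraph V) : Prop := G.semiDeg = (Nat.card V - 1) / 2

/-- `H` is Turánable: for some `n₀`, every semi-regular near-tournament with at least `n₀` vertices
contains `H`. -/
def OGraph.Turanable (H : OGraph V) : Prop :=
  ∃ n₀ : ℕ, ∀ (W : Type) [Finite W], n₀ ≤ Nat.card W → ∀ G : OGraph W, G.SemiRegular → H.Sub G

/-- The `k`-th power `C_{2k+1}^k` of the cycle on `2k + 1` vertices: the vertex set is
`ℤ/(2k+1)`, with an edge `a → a + t` for `1 ≤ t ≤ k`. -/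
def cyc (k : ℕ) : OGraph (ZMod (2 * k + 1)) where
  adj a b := ∃ t : ℕ, 1 ≤ t ∧ t ≤ k ∧ b = a + t
  asymm := (Q153.Turan.cyc k).asymm

/-- The tournament `F_r`: `u → v` if at the first coordinate `i` with `u i ≠ v i` one has
`v i = u i + 1` modulo 3. -/
def F (r : ℕ) : OGraph (Fin r → Fin 3) where
  adj u v := ∃ i, (∀ j < i, u j = v j) ∧ v i = u i + 1
  asymm := (Q153.Turan.F r).asymm

/-- The condition of the conjecture: `G` lies in some `F_r` and in some `C_{2k+1}^k`. -/
def InClass (G : OGraph V) : Prop := (∃ r ≥ 1, G.Sub (F r)) ∧ ∃ k ≥ 1, G.Sub (cyc k)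

lemma F_pad {r R : ℕ} (h : r ≤ R) : ∃ p : (Fin r → Fin 3) → (Fin R → Fin 3),
    Function.Injective p ∧ ∀ u v, (F r).adj u v → (F R).adj (p u) (p v) := by
  refine ⟨fun u j => if hj : (j : ℕ) < r then u ⟨j, hj⟩ else 0, ?_, ?_⟩
  · intro u v huv
    funext i
    have := congrFun huv ⟨i, by omega⟩
    simpa using this
  · rintro u v ⟨i, h1, h2⟩
    refine ⟨⟨i, by omega⟩, fun j hj => ?_, ?_⟩
    · have hj' : (j : ℕ) < i := hj
      have hjr : (j : ℕ) < r := by omega
      simp only [hjr, dif_pos]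
      exact h1 ⟨j, hjr⟩ hj'
    · simp only [i.2, dif_pos]
      exact h2

lemma cyc_hom {k K : ℕ} (hK : 2 * k + 2 ≤ K) : ∃ c : ZMod (2 * k + 1) → Bool × Fin K,
    ∀ a b, (cyc k).adj a b → Q153.Turan.cadj (c a) (c b) := by
  refine ⟨fun a => if h : a.val ≤ k then (false, ⟨2 * a.val, by omega⟩) else
    (true, ⟨2 * (a.val - k - 1) + 1, by have := ZMod.val_lt a; omega⟩), ?_⟩
  rintro a b ⟨t, ht1, ht2, hbt⟩
  have ha := ZMod.val_lt a
  have hb := ZMod.val_lt b
  have htv : (t : ZMod (2 * k + 1)).val = t := by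
    rw [ZMod.val_natCast]
    exact Nat.mod_eq_of_lt (by omega)
  have hv : b.val = a.val + t ∨ b.val + (2 * k + 1) = a.val + t := by
    rw [hbt, ZMod.val_add, htv]
    rcases lt_or_ge (a.val + t) (2 * k + 1) with h | h
    · left
      exact Nat.mod_eq_of_lt h
    · right
      rw [Nat.mod_eq_sub_mod h, Nat.mod_eq_of_lt (by omega)]
      omega
  by_cases h1 : a.val ≤ k <;> by_cases h2 : b.val ≤ k
  · simp only [h1, h2, dif_pos]
    left
    refine ⟨rfl, ?_⟩
    change 2 * a.val < 2 * b.val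
    omega
  · simp only [h1, h2, dif_pos, dif_neg, not_false_iff]
    right
    refine ⟨by simp, ?_⟩
    change 2 * (b.val - k - 1) + 1 < 2 * a.val
    omega
  · simp only [h1, h2, dif_pos, dif_neg, not_false_iff]
    right
    refine ⟨by simp, ?_⟩
    change 2 * b.val < 2 * (a.val - k - 1) + 1
    omega
  · simp only [h1, h2, dif_neg, not_false_iff]
    left
    refine ⟨rfl, ?_⟩
    change 2 * (a.val - k - 1) + 1 < 2 * (b.val - k - 1) + 1
    omega

/-- The product, as one of our oriented graphs. -/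
def P (K R : ℕ) : OGraph ((Bool × Fin K) × (Fin R → Fin 3)) where
  adj := (Q153.Turan.H K R).adj
  asymm := (Q153.Turan.H K R).asymm

lemma sub_P {G : OGraph V} {r k K R : ℕ} (hr : r ≤ R) (hk : 2 * k + 2 ≤ K) (h1 : G.Sub (F r))
    (h2 : G.Sub (cyc k)) : G.Sub (P K R) := by
  obtain ⟨f, hf, hf'⟩ := h1
  obtain ⟨g, -, hg'⟩ := h2
  obtain ⟨p, hp, hp'⟩ := F_pad hr
  obtain ⟨c, hc⟩ := cyc_hom hk
  exact ⟨fun v => (c (g v), p (f v)), fun u v huv => hf (hp (congrArg Prod.snd huv)),
    fun u v huv => ⟨hc _ _ (hg' u v huv), hp' _ _ (hf' u v huv)⟩⟩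

lemma P_inClass {K R : ℕ} (hK : 1 ≤ K) : InClass (P K R) := by
  refine ⟨⟨_, ?_, Q153.Turan.H_sub_F K R⟩, ⟨_, ?_, Q153.Turan.H_sub_cyc K R⟩⟩
  · rw [Fintype.card_prod, Fintype.card_bool, Fintype.card_fin]
    omega
  · have : 0 < Fintype.card (Fin R → Fin 3) := Fintype.card_pos
    exact Nat.mul_pos hK this

/-- The regular tournaments, as our oriented graphs. -/
def T (m : ℕ) : OGraph (Fin 3 × ZMod (2 * m + 1)) where
  adj := (Q153.Turan.T m).adj
  asymm := (Q153.Turan.T m).asymm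

lemma T_semiRegular (m : ℕ) : (T m).SemiRegular := Q153.Turan.T_semiRegular m

lemma P_not_sub (m : ℕ) {K R : ℕ} (hK : 46 ≤ K) (hR : Fintype.card (Bool × Fin K → Fin 3) ≤ R) :
    ¬ (P K R).Sub (T m) := Q153.Turan.not_sub_T m K R hK hR

lemma not_turanable {G : OGraph V} (h : ∀ m, ¬ G.Sub (T m)) : ¬ G.Turanable := by
  rintro ⟨n₀, hn⟩
  refine h n₀ (hn (Fin 3 × ZMod (2 * n₀ + 1)) ?_ (T n₀) (T_semiRegular n₀))
  rw [Nat.card_prod, Nat.card_eq_fintype_card, Nat.card_eq_fintype_card, ZMod.card,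
    Fintype.card_fin]
  omega

theorem cofinal (G : OGraph V) (h : InClass G) : ∃ K R : ℕ, G.Sub (P K R) ∧ InClass (P K R) ∧
    (∀ m, ¬ (P K R).Sub (T m)) ∧ ¬ (P K R).Turanable := by
  obtain ⟨⟨r, -, h1⟩, ⟨k, -, h2⟩⟩ := h
  let K := 2 * k + 46
  let R := r + Fintype.card (Bool × Fin K → Fin 3)
  have h3 : ∀ m, ¬ (P K R).Sub (T m) := fun m => P_not_sub m (by omega) (by omega)
  exact ⟨K, R, sub_P (by omega) (by omega) h1 h2, P_inClass (by omega), h3, not_turanable h3⟩

end Pool.Agent.H41.TU
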