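import Pool.Agent.H41.TU.A

/-! Semi-regular near-tournaments of every order which avoid the products. -/

set_option autoImplicit false

namespace Pool.Agent.H41.TU

variable {V W : Type}

/-- `X` with at most `s` vertices removed embeds in some `T m`. -/
def Av (X : OGraph W) (s : ℕ) : Prop :=
  ∃ (m : ℕ) (S : Finset W) (f : W → Fin 3 × ZMod (2 * m + 1)), S.card ≤ s ∧
    (∀ u v, u ∉ S → v ∉ S → f u = f v → u = v) ∧
    ∀ u v, u ∉ S → v ∉ S → X.adj u v → (T m).adj (f u) (f v)

/-- One more vertex, with the out-neighbours `A` and the in-neighbours outside `A`. -/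
def ext (G : OGraph V) (A : Set V) : OGraph (Option V) where
  adj x y := match x, y with
    | none, none => False
    | none, some v => v ∈ A
    | some u, none => u ∉ A
    | some u, some v => G.adj u v
  asymm := by
    rintro (_ | u) (_ | v) h h'
    · exact h
    · exact h' h
    · exact h h'
    · exact G.asymm _ _ h h'

lemma Av.ext {G : OGraph V} {s : ℕ} (h : Av G s) (A : Set V) : Av (ext G A) (s + 1) := by
  classical
  obtain ⟨m, S, f, h1, h2, h3⟩ := h
  refine ⟨m, insert none (S.map ⟨some, Option.some_injective V⟩),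
    fun w => match w with | none => 0 | some v => f v, ?_, ?_, ?_⟩
  · refine (Finset.card_insert_le _ _).trans ?_
    rw [Finset.card_map]
    omega
  · rintro (_ | u) (_ | v) hu hv huv
    · rfl
    · exact absurd (Finset.mem_insert_self _ _) hu
    · exact absurd (Finset.mem_insert_self _ _) hv
    · have hu' : u ∉ S := fun hh => hu (Finset.mem_insert_of_mem (Finset.mem_map_of_mem _ hh))
      have hv' : v ∉ S := fun hh => hv (Finset.mem_insert_of_mem (Finset.mem_map_of_mem _ hh))
      rw [h2 u v hu' hv' huv]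
  · rintro (_ | u) (_ | v) hu hv huv
    · exact absurd (Finset.mem_insert_self _ _) hu
    · exact absurd (Finset.mem_insert_self _ _) hu
    · exact absurd (Finset.mem_insert_self _ _) hv
    · have hu' : u ∉ S := fun hh => hu (Finset.mem_insert_of_mem (Finset.mem_map_of_mem _ hh))
      have hv' : v ∉ S := fun hh => hv (Finset.mem_insert_of_mem (Finset.mem_map_of_mem _ hh))
      exact h3 u v hu' hv' huv

lemma T_av (m : ℕ) : Av (T m) 0 :=
  ⟨m, ∅, id, by simp, fun _ _ _ _ h => h, fun _ _ _ _ h => h⟩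

/-- The copy of the product given by two leading letters. -/
def lift {K R : ℕ} (c : Fin 3 × Fin 3) (a : (Bool × Fin K) × (Fin R → Fin 3)) :
    (Bool × Fin K) × (Fin (R + 2) → Fin 3) :=
  (a.1, Fin.cons c.1 (Fin.cons c.2 a.2 : Fin (R + 1) → Fin 3))

lemma lift_inj {K R : ℕ} {c c' : Fin 3 × Fin 3} {a a' : (Bool × Fin K) × (Fin R → Fin 3)}
    (h : lift c a = lift c' a') : c = c' ∧ a = a' := by
  have h1 : a.1 = a'.1 :=
    congrArg (fun x : (Bool × Fin K) × (Fin (R + 2) → Fin 3) => x.1) h
  have h2 : (Fin.cons c.1 (Fin.cons c.2 a.2 : Fin (R + 1) → Fin 3) : Fin (R + 2) → Fin 3) =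
      Fin.cons c'.1 (Fin.cons c'.2 a'.2 : Fin (R + 1) → Fin 3) :=
    congrArg (fun x : (Bool × Fin K) × (Fin (R + 2) → Fin 3) => x.2) h
  obtain ⟨h3, h4⟩ := Fin.cons_inj.1 h2
  obtain ⟨h5, h6⟩ := Fin.cons_inj.1 h4
  exact ⟨Prod.ext h3 h5, Prod.ext h1 h6⟩

lemma lift_adj {K R : ℕ} (c : Fin 3 × Fin 3) {a b : (Bool × Fin K) × (Fin R → Fin 3)}
    (h : (P K R).adj a b) : (P K (R + 2)).adj (lift c a) (lift c b) :=
  ⟨h.1, Q153.Turan.F_cons c.1 (Q153.Turan.F_cons c.2 h.2)⟩

lemma not_sub_of_av {X : OGraph W} {s : ℕ} (h : Av X s) (hs : s ≤ 8) {K R : ℕ} (hK : 46 ≤ K)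
    (hR : Fintype.card (Bool × Fin K → Fin 3) ≤ R) : ¬ (P K (R + 2)).Sub X := by
  classical
  rintro ⟨g, hg, hg'⟩
  obtain ⟨m, S, f, h1, h2, h3⟩ := h
  have hc : ∃ c : Fin 3 × Fin 3, ∀ a : (Bool × Fin K) × (Fin R → Fin 3), g (lift c a) ∉ S := by
    by_contra hne
    push Not at hne
    choose p hp using hne
    have hinj : Function.Injective fun c => (⟨g (lift c (p c)), hp c⟩ : S) := by
      intro c c' hcc
      exact (lift_inj (hg (congrArg Subtype.val hcc))).1
    have h4 := Fintype.card_le_of_injective _ hinj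
    rw [Fintype.card_prod, Fintype.card_fin, Fintype.card_coe] at h4
    omega
  obtain ⟨c, hc⟩ := hc
  refine P_not_sub m hK hR ⟨fun a => f (g (lift c a)), fun a b hab => ?_, fun a b hab => ?_⟩
  · exact (lift_inj (hg (h2 _ _ (hc a) (hc b) hab))).2
  · exact h3 _ _ (hc a) (hc b) (hg' _ _ (lift_adj c hab))

lemma card_option [Finite V] (p : Option V → Prop) : Nat.card {w // p w} =
    Nat.card {v // p (some v)} + Nat.card {_u : Unit // p none} := by
  classical
  have := Fintype.ofFinite V
  rw [Nat.card_eq_fintype_card, Nat.card_eq_fintype_card, Nat.card_eq_fintype_card,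
    Fintype.card_subtype, Fintype.card_subtype, Fintype.card_subtype, Finset.card_filter,
    Finset.card_filter, Finset.card_filter, Fintype.sum_option]
  simp [add_comm]

lemma card_unit (p : Prop) (h : p) : Nat.card {_u : Unit // p} = 1 := by
  simp [h]

lemma card_unit' (p : Prop) (h : ¬ p) : Nat.card {_u : Unit // p} = 0 := by
  simp [h]

/-- All out-degrees and in-degrees are `q`, and there are `2 q + 1` vertices. -/
def Reg (G : OGraph V) (q : ℕ) : Prop :=
  Nat.card V = 2 * q + 1 ∧ ∀ v, Nat.card {w // G.adj v w} = q ∧ Nat.card {w // G.adj w v} = q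

lemma T_reg (m : ℕ) : Reg (T m) (3 * m + 1) := by
  refine ⟨?_, fun v => ⟨Q153.Turan.T_out m v, Q153.Turan.T_in m v⟩⟩
  rw [Nat.card_prod, Nat.card_eq_fintype_card, Nat.card_eq_fintype_card, ZMod.card,
    Fintype.card_fin]
  omega

lemma Reg.semi {G : OGraph V} {q : ℕ} (h : Reg G q) : G.SemiRegular := by
  have hV : Nonempty V := by
    by_contra hne
    rw [not_nonempty_iff] at hne
    have := h.1
    rw [Nat.card_of_isEmpty] at this
    omega
  have h1 : {d | ∃ v, d = Nat.card {w // G.adj v w} ∨ d = Nat.card {w // G.adj w v}} = {q} := by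
    ext d
    constructor
    · rintro ⟨v, hd | hd⟩
      · rw [hd, (h.2 v).1]
        rfl
      · rw [hd, (h.2 v).2]
        rfl
    · rintro rfl
      obtain ⟨v⟩ := hV
      exact ⟨v, Or.inl (h.2 v).1.symm⟩
  unfold OGraph.SemiRegular OGraph.semiDeg
  rw [h1, csInf_singleton, h.1]
  omega

section ext
variable [Finite V] {G : OGraph V} {q : ℕ} {A : Set V}

lemma out_some (u : V) : Nat.card {w // (ext G A).adj (some u) w} =
    Nat.card {w // G.adj u w} + Nat.card {_u : Unit // u ∉ A} :=
  card_option _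

lemma in_some (u : V) : Nat.card {w // (ext G A).adj w (some u)} =
    Nat.card {w // G.adj w u} + Nat.card {_u : Unit // u ∈ A} :=
  card_option _

lemma out_none : Nat.card {w // (ext G A).adj none w} = Nat.card {v // v ∈ A} := by
  rw [card_option, card_unit' ((ext G A).adj none none) (fun h => h), add_zero]
  rfl

lemma in_none : Nat.card {w // (ext G A).adj w none} = Nat.card {v // v ∉ A} := by
  rw [card_option, card_unit' ((ext G A).adj none none) (fun h => h), add_zero]
  rfl

end ext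

lemma exists_set [Finite V] {q : ℕ} (h : Nat.card V = 2 * q + 1) : ∃ A : Set V,
    Nat.card {v // v ∈ A} = q ∧ Nat.card {v // v ∉ A} = q + 1 := by
  classical
  have := Fintype.ofFinite V
  rw [Nat.card_eq_fintype_card] at h
  obtain ⟨S, -, hS⟩ := Finset.exists_subset_card_eq (s := (Finset.univ : Finset V)) (n := q)
    (by rw [Finset.card_univ]; omega)
  refine ⟨S, ?_, ?_⟩
  · rw [Nat.card_eq_fintype_card]
    simp [hS]
  · rw [Nat.card_eq_fintype_card, Fintype.card_subtype_compl]
    simp [hS]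
    omega

lemma even_step [Finite V] {G : OGraph V} {q : ℕ} (h : Reg G q) {A : Set V}
    (h1 : Nat.card {v // v ∈ A} = q) (h2 : Nat.card {v // v ∉ A} = q + 1) :
    (ext G A).SemiRegular ∧ Nat.card (Option V) = 2 * q + 2 := by
  have hc : Nat.card (Option V) = 2 * q + 2 := by
    rw [Finite.card_option, h.1]
  refine ⟨?_, hc⟩
  have hle : ∀ d ∈ {d | ∃ v, d = Nat.card {w // (ext G A).adj v w} ∨
      d = Nat.card {w // (ext G A).adj w v}}, q ≤ d := by
    rintro d ⟨_ | v, rfl | rfl⟩
    · rw [out_none, h1]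
    · rw [in_none, h2]
      omega
    · rw [out_some, (h.2 v).1]
      omega
    · rw [in_some, (h.2 v).2]
      omega
  have hmem : q ∈ {d | ∃ v, d = Nat.card {w // (ext G A).adj v w} ∨
      d = Nat.card {w // (ext G A).adj w v}} := ⟨none, Or.inl (by rw [out_none, h1])⟩
  unfold OGraph.SemiRegular OGraph.semiDeg
  rw [hc, le_antisymm (Nat.sInf_le hmem) (le_csInf ⟨q, hmem⟩ hle)]
  omega

lemma odd_step [Finite V] {G : OGraph V} {q : ℕ} (h : Reg G q) {A : Set V}
    (h1 : Nat.card {v // v ∈ A} = q) (h2 : Nat.card {v // v ∉ A} = q + 1) :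
    Reg (ext (ext G A) {w | ∃ v, v ∉ A ∧ w = some v}) (q + 1) := by
  have hm : ∀ u : V, (some u ∈ {w : Option V | ∃ v, v ∉ A ∧ w = some v}) ↔ u ∉ A := by
    intro u
    constructor
    · rintro ⟨v, hv, huv⟩
      rw [Option.some_injective _ huv]
      exact hv
    · exact fun hu => ⟨u, hu, rfl⟩
  have hn : none ∉ {w : Option V | ∃ v, v ∉ A ∧ w = some v} := by
    rintro ⟨v, -, hv⟩
    cases hv
  have hc : Nat.card (Option V) = 2 * q + 2 := by
    rw [Finite.card_option, h.1]
  refine ⟨by rw [Finite.card_option, hc]; ring, ?_⟩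
  rintro (_ | _ | u)
  · rw [out_none, in_none]
    constructor
    · rw [card_option, card_unit' _ hn]
      simp only [hm, h2]
    · rw [card_option, card_unit _ hn]
      simp only [hm, not_not, h1]
  · rw [out_some, in_some, out_none, in_none, h1, h2, card_unit _ hn, card_unit' _ hn]
    exact ⟨rfl, rfl⟩
  · rw [out_some, in_some, out_some, in_some, (h.2 u).1, (h.2 u).2]
    simp only [hm]
    by_cases hu : u ∈ A
    · rw [card_unit' (u ∉ A) (fun hh => hh hu), card_unit _ hu, card_unit (¬ u ∉ A) (fun hh => hh hu)]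
      omega
    · rw [card_unit _ hu, card_unit' _ hu, card_unit' (¬ u ∉ A) (fun hh => hh hu)]
      omega

/-- A regular tournament of order `2 q + 1` close to some `T m`. -/
def Odd' (q s : ℕ) : Prop := ∃ (V : Type) (_ : Finite V) (G : OGraph V), Reg G q ∧ Av G s

lemma odd_next {q s : ℕ} (h : Odd' q s) : Odd' (q + 1) (s + 2) := by
  obtain ⟨V, _, G, hG, hs⟩ := h
  obtain ⟨A, h1, h2⟩ := exists_set hG.1
  exact ⟨Option (Option V), inferInstance, _, odd_step hG h1 h2, (hs.ext A).ext _⟩

lemma odd_all (q : ℕ) : Odd' (q + 1) 4 := by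
  have h : Odd' (3 * (q / 3) + 1) 0 := ⟨_, inferInstance, T (q / 3), T_reg _, T_av _⟩
  have mono : ∀ {q s s' : ℕ}, s ≤ s' → Odd' q s → Odd' q s' := by
    rintro q s s' hs ⟨V, hV, G, hG, m, S, f, k1, k2, k3⟩
    exact ⟨V, hV, G, hG, m, S, f, k1.trans hs, k2, k3⟩
  have h3 : q % 3 < 3 := Nat.mod_lt _ (by norm_num)
  interval_cases hq : q % 3
  · have : q + 1 = 3 * (q / 3) + 1 := by omega
    rw [this]
    exact mono (by norm_num) h
  · have : q + 1 = 3 * (q / 3) + 1 + 1 := by omega
    rw [this]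
    exact mono (by norm_num) (odd_next h)
  · have : q + 1 = 3 * (q / 3) + 1 + 1 + 1 := by omega
    rw [this]
    exact odd_next (odd_next h)

/-- For every order at least 3 a semi-regular near-tournament which avoids the products. -/
lemma every_order (n : ℕ) : ∃ (V : Type) (_ : Finite V) (G : OGraph V), Nat.card V = n + 3 ∧
    G.SemiRegular ∧ ∀ K R : ℕ, 46 ≤ K → Fintype.card (Bool × Fin K → Fin 3) ≤ R →
      ¬ (P K (R + 2)).Sub G := by
  obtain ⟨V, hV, G, hG, hs⟩ := odd_all (n / 2)
  rcases Nat.even_or_odd' n with ⟨k, rfl | rfl⟩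
  · refine ⟨V, hV, G, ?_, hG.semi, fun K R hK hR => not_sub_of_av hs (by norm_num) hK hR⟩
    rw [hG.1]
    omega
  · obtain ⟨A, h1, h2⟩ := exists_set hG.1
    obtain ⟨h3, h4⟩ := even_step hG h1 h2
    refine ⟨Option V, inferInstance, ext G A, ?_, h3, fun K R hK hR =>
      not_sub_of_av (hs.ext A) (by norm_num) hK hR⟩
    rw [h4]
    omega

theorem cofinal_all (G : OGraph V) (h : InClass G) : ∃ K R : ℕ, 46 ≤ K ∧
    Fintype.card (Bool × Fin K → Fin 3) ≤ R ∧ G.Sub (P K (R + 2)) ∧ InClass (P K (R + 2)) := by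
  obtain ⟨⟨r, -, h1⟩, ⟨k, -, h2⟩⟩ := h
  exact ⟨2 * k + 46, r + Fintype.card (Bool × Fin (2 * k + 46) → Fin 3), by omega, by omega,
    sub_P (by omega) (by omega) h1 h2, P_inClass (by omega)⟩

end Pool.Agent.H41.TU
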